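import Mathlib

set_option autoImplicit false

open Set

namespace Pool.Agent.Results.MP_82a66d_co.FlagVertexCounterexample

/-! ## Definitions -/

/-- The Euclidean space `ℝ^d`. -/
abbrev Space (d : ℕ) := EuclideanSpace ℝ (Fin d)

/-- The dimension of (the affine hull of) a set. -/
noncomputable def setDim {d : ℕ} (S : Set (Space d)) : ℕ :=
  Module.finrank ℝ (vectorSpan ℝ S)

/-- `P` is a convex polytope in `ℝ^d` of dimension `d`: the convex hull of a finite set, whose
affine hull is `d`-dimensional. -/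
def IsDPolytope {d : ℕ} (P : Set (Space d)) : Prop :=
  (∃ s : Finset (Space d), P = convexHull ℝ (s : Set (Space d))) ∧ P.Nonempty ∧ setDim P = d

/-- `G` is a face (proper or improper, possibly empty) of the polytope `P`: it is empty or the set
of all points of `P` at which some linear functional attains its maximum over `P` (the zero
functional gives `P` itself). -/
def IsFace {d : ℕ} (P G : Set (Space d)) : Prop := IsExposed ℝ P G

/-- `V` is a vertex of `P`: `{V}` is a face of `P`. -/
def IsVertex {d : ℕ} (P : Set (Space d)) (V : Space d) : Prop := IsFace P {V}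

/-- A tower `∅ ⊂ F 0 ⊂ F 1 ⊂ ⋯ ⊂ F d = P` of faces of `P`, with `F k` of dimension `k`. (The values
`F k` with `k > d` play no role.) -/
def IsTower {d : ℕ} (P : Set (Space d)) (F : ℕ → Set (Space d)) : Prop :=
  (∀ k ≤ d, IsFace P (F k) ∧ (F k).Nonempty ∧ setDim (F k) = k) ∧
    (∀ k < d, F k ⊂ F (k + 1)) ∧ F d = P

/-- `T` is a `d`-simplex in `ℝ^d`. -/
def IsSimplex {d : ℕ} (T : Set (Space d)) : Prop :=
  ∃ b : Fin (d + 1) → Space d, AffineIndependent ℝ b ∧ T = convexHull ℝ (range b)

/-- The preimage under `ψ : P → T` of a set `K`, as a subset of `ℝ^d`. -/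
def preim {d : ℕ} {P T : Set (Space d)} (ψ : P ≃ₜ T) (K : Set (Space d)) : Set (Space d) :=
  {x | ∃ hx : x ∈ P, (ψ ⟨x, hx⟩ : Space d) ∈ K}

/-- The image under `ψ : P → T` of a set `G`, as a subset of `ℝ^d`. -/
def im {d : ℕ} {P T : Set (Space d)} (ψ : P ≃ₜ T) (G : Set (Space d)) : Set (Space d) :=
  {y | ∃ x, ∃ hx : x ∈ P, x ∈ G ∧ (ψ ⟨x, hx⟩ : Space d) = y}

/-- A homeomorphism `ψ : P → T` is a refinement map if the preimage of every face of `T` is the
union of some family of faces of `P`. -/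
def IsRefinementMap {d : ℕ} {P T : Set (Space d)} (ψ : P ≃ₜ T) : Prop :=
  ∀ K, IsFace T K → ∃ 𝒮 : Set (Set (Space d)), (∀ G ∈ 𝒮, IsFace P G) ∧ preim ψ K = ⋃₀ 𝒮

/-! ## General facts about faces -/

section general

variable {d : ℕ}

/-- A face of `conv s` is contained in the convex hull of the points of `s` it contains. -/
lemma face_subset {s G : Set (Space d)} (hG : IsFace (convexHull ℝ s) G) :
    G ⊆ convexHull ℝ (s ∩ G) := by
  have hext : IsExtreme ℝ (convexHull ℝ s) G := IsExposed.isExtreme hG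
  have key : convexHull ℝ s ⊆ {x | x ∈ convexHull ℝ s ∧ (x ∈ G → x ∈ convexHull ℝ (s ∩ G))} := by
    apply convexHull_min
    · intro x hx
      exact ⟨subset_convexHull ℝ s hx, fun hxG => subset_convexHull ℝ _ ⟨hx, hxG⟩⟩
    · rw [convex_iff_forall_pos]
      intro x hx y hy a b ha hb hab
      refine ⟨(convex_convexHull ℝ s) hx.1 hy.1 ha.le hb.le hab, fun hz => ?_⟩
      have hop : a • x + b • y ∈ openSegment ℝ x y := ⟨a, b, ha, hb, hab, rfl⟩
      have h1 : x ∈ G := hext.left_mem_of_mem_openSegment hx.1 hy.1 hz hop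
      have h2 : y ∈ G := hext.right_mem_of_mem_openSegment hx.1 hy.1 hz hop
      exact (convex_convexHull ℝ _) (hx.2 h1) (hy.2 h2) ha.le hb.le hab
  intro x hx
  exact (key (hG.subset hx)).2 hx

/-- If a connected union of faces of `conv s` contains the point `v`, which is not in the convex
hull of the other points of `s`, and another point, then one of the faces contains `v` and another
point of `s`. -/
lemma exists_face_at {s : Set (Space d)} (hs : s.Finite) {v z : Space d}
    (hv : v ∉ convexHull ℝ (s \ {v})) {𝒮 : Set (Set (Space d))}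
    (h𝒮 : ∀ G ∈ 𝒮, IsFace (convexHull ℝ s) G) (hcon : IsPreconnected (⋃₀ 𝒮))
    (hvA : v ∈ ⋃₀ 𝒮) (hzA : z ∈ ⋃₀ 𝒮) (hzv : z ≠ v) :
    ∃ G ∈ 𝒮, v ∈ G ∧ ∃ u ∈ s, u ∈ G ∧ u ≠ v := by
  by_contra hcontra
  push Not at hcontra
  have hsub : ⋃₀ 𝒮 ⊆ {v} ∪ convexHull ℝ (s \ {v}) := by
    rintro x ⟨G, hG, hxG⟩
    by_cases hvG : v ∈ G
    · left
      have h1 : s ∩ G ⊆ {v} := by
        rintro u ⟨hus, huG⟩
        exact hcontra G hG hvG u hus huG
      have h2 := face_subset (h𝒮 G hG) hxG
      have h3 := convexHull_mono h1 h2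
      simpa using h3
    · right
      have h1 : s ∩ G ⊆ s \ {v} := by
        rintro u ⟨hus, huG⟩
        refine ⟨hus, ?_⟩
        rintro rfl
        exact hvG huG
      exact convexHull_mono h1 (face_subset (h𝒮 G hG) hxG)
  have hclosed : IsClosed (convexHull ℝ (s \ {v})) :=
    (hs.subset sdiff_subset).isClosed_convexHull ℝ
  have := isPreconnected_closed_iff.1 hcon {v} (convexHull ℝ (s \ {v})) isClosed_singleton hclosed
    hsub ⟨v, hvA, rfl⟩ ?_
  · obtain ⟨x, -, hx1, hx2⟩ := this
    rw [mem_singleton_iff] at hx1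
    exact hv (hx1 ▸ hx2)
  · refine ⟨z, hzA, ?_⟩
    rcases hsub hzA with h | h
    · exact absurd h hzv
    · exact h

end general

/-! ## Facts about simplices -/

section simplex

variable {d : ℕ}

/-- `d + 1` affinely independent points of `ℝ^d` form an affine basis. -/
noncomputable def simplexBasis (b : Fin (d + 1) → Space d) (hb : AffineIndependent ℝ b) :
    AffineBasis (Fin (d + 1)) ℝ (Space d) :=
  ⟨b, hb, by
    rw [hb.affineSpan_eq_top_iff_card_eq_finrank_add_one]
    simp⟩

lemma coe_simplexBasis (b : Fin (d + 1) → Space d) (hb : AffineIndependent ℝ b) :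
    (simplexBasis b hb : Fin (d + 1) → Space d) = b := rfl

/-- A point of the simplex at which two barycentric coordinates sum to `1` lies on the segment. -/
lemma mem_segment_of_coord (B : AffineBasis (Fin (d + 1)) ℝ (Space d)) {i j : Fin (d + 1)}
    (hij : i ≠ j) {x : Space d} (hx : x ∈ convexHull ℝ (range B))
    (h : B.coord i x + B.coord j x = 1) : x ∈ segment ℝ (B i) (B j) := by
  rw [B.convexHull_eq_nonneg_coord] at hx
  have hsum := B.sum_coord_apply_eq_one x
  have hz : ∀ k, k ≠ i → k ≠ j → B.coord k x = 0 := by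
    intro k hki hkj
    have h1 : ∑ l ∈ ({i, j, k} : Finset (Fin (d + 1))), B.coord l x ≤ ∑ l, B.coord l x :=
      Finset.sum_le_sum_of_subset_of_nonneg (Finset.subset_univ _) (fun l _ _ => hx l)
    rw [Finset.sum_insert (by simp [hij, Ne.symm hki]), Finset.sum_insert (by simp [Ne.symm hkj]),
      Finset.sum_singleton, hsum] at h1
    have := hx k
    linarith
  refine ⟨B.coord i x, B.coord j x, hx i, hx j, h, ?_⟩
  conv_rhs => rw [← B.linear_combination_coord_eq_self x]
  rw [← Finset.sum_subset (Finset.subset_univ ({i, j} : Finset (Fin (d + 1))))]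
  · rw [Finset.sum_pair hij]
  · intro k _ hk
    simp only [Finset.mem_insert, Finset.mem_singleton, not_or] at hk
    rw [hz k hk.1 hk.2, zero_smul]

lemma coord_of_mem_segment (B : AffineBasis (Fin (d + 1)) ℝ (Space d)) {i j k : Fin (d + 1)}
    (hki : k ≠ i) (hkj : k ≠ j) {x : Space d} (hx : x ∈ segment ℝ (B i) (B j)) :
    B.coord k x = 0 := by
  obtain ⟨a, b, ha, hb, hab, rfl⟩ := hx
  rw [Convex.combo_affine_apply hab, B.coord_apply_ne hki, B.coord_apply_ne hkj]
  simp

lemma coord_add_of_mem_segment (B : AffineBasis (Fin (d + 1)) ℝ (Space d)) {i j : Fin (d + 1)}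
    (hij : i ≠ j) {x : Space d} (hx : x ∈ segment ℝ (B i) (B j)) :
    B.coord i x + B.coord j x = 1 := by
  obtain ⟨a, b, ha, hb, hab, rfl⟩ := hx
  rw [Convex.combo_affine_apply hab, Convex.combo_affine_apply hab, B.coord_apply_ne hij,
    B.coord_apply_ne hij.symm, B.coord_apply_eq, B.coord_apply_eq]
  simp [hab]

/-- The edges of a simplex are faces. -/
lemma segment_isFace (B : AffineBasis (Fin (d + 1)) ℝ (Space d)) {i j : Fin (d + 1)}
    (hij : i ≠ j) : IsFace (convexHull ℝ (range B)) (segment ℝ (B i) (B j)) := by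
  intro _
  have hmem : ∀ k, B k ∈ convexHull ℝ (range B) := fun k => subset_convexHull ℝ _ ⟨k, rfl⟩
  refine ⟨LinearMap.toContinuousLinearMap ((B.coord i + B.coord j : Space d →ᵃ[ℝ] ℝ).linear), ?_⟩
  have hval : ∀ x y : Space d,
      (B.coord i + B.coord j : Space d →ᵃ[ℝ] ℝ).linear x
        ≤ (B.coord i + B.coord j : Space d →ᵃ[ℝ] ℝ).linear y ↔
      B.coord i x + B.coord j x ≤ B.coord i y + B.coord j y := by
    intro x y
    have h1 := (B.coord i + B.coord j : Space d →ᵃ[ℝ] ℝ).linearMap_vsub x y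
    simp only [vsub_eq_sub, map_sub, AffineMap.coe_add, Pi.add_apply] at h1
    constructor
    · intro h
      linarith
    · intro h
      linarith
  ext x
  simp only [LinearMap.coe_toContinuousLinearMap', mem_ofPred_eq, hval]
  constructor
  · intro hx
    refine ⟨(convex_convexHull ℝ _).segment_subset (hmem i) (hmem j) hx, fun y hy => ?_⟩
    rw [coord_add_of_mem_segment B hij hx]
    rw [B.convexHull_eq_nonneg_coord] at hy
    have h1 : ∑ l ∈ ({i, j} : Finset (Fin (d + 1))), B.coord l y ≤ ∑ l, B.coord l y :=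
      Finset.sum_le_sum_of_subset_of_nonneg (Finset.subset_univ _) (fun l _ _ => hy l)
    rw [Finset.sum_pair hij, B.sum_coord_apply_eq_one y] at h1
    exact h1
  · rintro ⟨hx, hmax⟩
    apply mem_segment_of_coord B hij hx
    have h1 := hmax (B i) (hmem i)
    rw [B.coord_apply_eq, B.coord_apply_ne hij.symm, add_zero] at h1
    rw [B.convexHull_eq_nonneg_coord] at hx
    have h2 : ∑ l ∈ ({i, j} : Finset (Fin (d + 1))), B.coord l x ≤ ∑ l, B.coord l x :=
      Finset.sum_le_sum_of_subset_of_nonneg (Finset.subset_univ _) (fun l _ _ => hx l)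
    rw [Finset.sum_pair hij, B.sum_coord_apply_eq_one x] at h2
    linarith

/-- Two edges of a simplex with a common endpoint meet only there. -/
lemma segment_inter (B : AffineBasis (Fin (d + 1)) ℝ (Space d)) {i j k : Fin (d + 1)}
    (hij : i ≠ j) (hik : i ≠ k) (hjk : j ≠ k) {x : Space d}
    (h1 : x ∈ segment ℝ (B i) (B j)) (h2 : x ∈ segment ℝ (B i) (B k)) : x = B i := by
  apply B.ext_elem
  intro l
  by_cases hli : l = i
  · subst hli
    have h3 := coord_add_of_mem_segment B hij h1
    rw [coord_of_mem_segment B hij.symm hjk h2] at h3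
    rw [B.coord_apply_eq]
    linarith
  · rw [B.coord_apply_ne hli]
    by_cases hlj : l = j
    · subst hlj
      exact coord_of_mem_segment B hli hjk h2
    · exact coord_of_mem_segment B hli hlj h1

end simplex
/-! ## The prism over a simplex -/

section prism

variable {n : ℕ}

/-- The `j`-th standard basis vector. -/
noncomputable def e (j : Fin (n + 3)) : Space (n + 3) := EuclideanSpace.single j (1 : ℝ)

/-- The height coordinate of the prism. -/
def hh : Fin (n + 3) := ⟨n + 1, by omega⟩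

/-- The last coordinate. -/
def aa : Fin (n + 3) := ⟨n + 2, by omega⟩

lemma e_apply (j k : Fin (n + 3)) : (e j : Space (n + 3)) k = if k = j then 1 else 0 := by
  simp [e]

lemma hh_ne_aa : (hh : Fin (n + 3)) ≠ aa := by
  intro h
  have := congrArg Fin.val h
  simp [hh, aa] at this

lemma zero_ne_hh : (0 : Fin (n + 3)) ≠ hh := by
  intro h
  have := congrArg Fin.val h
  simp [hh] at this

lemma zero_ne_aa : (0 : Fin (n + 3)) ≠ aa := by
  intro h
  have := congrArg Fin.val h
  simp [aa] at this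

/-- The vertices of the prism: `0` and the `e j` (`j ≠ hh`), with or without `e hh` added. -/
noncomputable def vtx (p : Fin (n + 3) × Bool) : Space (n + 3) :=
  (if p.1 = hh then 0 else e p.1) + (if p.2 then e hh else 0)

/-- The vertex set of the prism. -/
def verts (n : ℕ) : Set (Space (n + 3)) := range vtx

/-- The prism over a simplex. -/
def prism (n : ℕ) : Set (Space (n + 3)) := convexHull ℝ (verts n)

lemma verts_finite : (verts n).Finite := finite_range _

lemma vtx_mem (p : Fin (n + 3) × Bool) : vtx p ∈ prism n := subset_convexHull ℝ _ ⟨p, rfl⟩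

lemma zero_mem : (0 : Space (n + 3)) ∈ prism n := by
  have := vtx_mem (n := n) (hh, false)
  simpa [vtx] using this

lemma e_mem (j : Fin (n + 3)) : e j ∈ prism n := by
  by_cases hj : j = hh
  · subst hj
    have := vtx_mem (n := n) (hh, true)
    simpa [vtx] using this
  · have := vtx_mem (n := n) (j, false)
    simpa [vtx, hj] using this

lemma e_add_mem (j : Fin (n + 3)) (hj : j ≠ hh) : e j + e hh ∈ prism n := by
  have := vtx_mem (n := n) (j, true)
  simpa [vtx, hj] using this

lemma bound (l : Space (n + 3) →ₗ[ℝ] ℝ) (c : ℝ) (h : ∀ p, l (vtx p) ≤ c) {x : Space (n + 3)}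
    (hx : x ∈ prism n) : l x ≤ c := by
  have : prism n ⊆ {y | l y ≤ c} := by
    apply convexHull_min
    · rintro _ ⟨p, rfl⟩
      exact h p
    · exact convex_halfSpace_le (IsLinearMap.mk l.map_add l.map_smul) c
  exact this hx

lemma vtx_apply (p : Fin (n + 3) × Bool) (k : Fin (n + 3)) :
    vtx p k = (if p.1 = hh then 0 else if k = p.1 then 1 else 0) +
      (if p.2 then (if k = hh then 1 else 0) else 0) := by
  unfold vtx
  rcases p with ⟨j, t⟩
  by_cases hj : j = hh <;> cases t <;> simp [hj, e_apply]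

lemma coord_nonneg {x : Space (n + 3)} (hx : x ∈ prism n) (j : Fin (n + 3)) : 0 ≤ x j := by
  have h := bound (n := n) (-(EuclideanSpace.proj j : Space (n + 3) →L[ℝ] ℝ) : Space (n + 3) →L[ℝ] ℝ)
    0 ?_ hx
  · simp at h
    exact h
  · intro p
    have : (0 : ℝ) ≤ vtx p j := by
      rw [vtx_apply]
      split_ifs <;> norm_num
    simpa using this

lemma coord_le_one {x : Space (n + 3)} (hx : x ∈ prism n) (j : Fin (n + 3)) : x j ≤ 1 := by
  have h := bound (n := n) ((EuclideanSpace.proj j : Space (n + 3) →L[ℝ] ℝ) : Space (n + 3) →L[ℝ] ℝ)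
    1 ?_ hx
  · simpa using h
  · intro p
    have : vtx p j ≤ (1 : ℝ) := by
      rw [vtx_apply]
      split_ifs <;> simp_all
    simpa using this

lemma sum_le {x : Space (n + 3)} (hx : x ∈ prism n) : ∑ j, x j ≤ 1 + x hh := by
  have h := bound (n := n) ((∑ j, (EuclideanSpace.proj j : Space (n + 3) →L[ℝ] ℝ)) -
    (EuclideanSpace.proj hh : Space (n + 3) →L[ℝ] ℝ) : Space (n + 3) →L[ℝ] ℝ)
    1 ?_ hx
  · simp at h
    linarith
  · rintro ⟨j, t⟩
    have : ∑ k, vtx (j, t) k - vtx (j, t) hh ≤ (1 : ℝ) := by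
      simp only [vtx_apply, Finset.sum_add_distrib]
      by_cases hj : j = hh
      · cases t <;> simp [hj]
      · cases t <;> simp [hj, Ne.symm hj]
    simpa using this

/-- The tower of faces of the prism. -/
def twr (n k : ℕ) : Set (Space (n + 3)) := {x | x ∈ prism n ∧ ∀ j : Fin (n + 3), k ≤ j → x j = 0}

lemma twr_isFace (k : ℕ) : IsFace (prism n) (twr n k) := by
  intro _
  refine ⟨-∑ j ∈ Finset.univ.filter (fun j : Fin (n + 3) => k ≤ j),
    (EuclideanSpace.proj j : Space (n + 3) →L[ℝ] ℝ), ?_⟩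
  ext x
  simp only [twr, mem_ofPred_eq, neg_apply, sum_apply,
    PiLp.proj_apply, neg_le_neg_iff]
  constructor
  · rintro ⟨hx, h0⟩
    refine ⟨hx, fun y hy => ?_⟩
    rw [Finset.sum_eq_zero (fun j hj => h0 j (Finset.mem_filter.1 hj).2)]
    exact Finset.sum_nonneg (fun j _ => coord_nonneg hy j)
  · rintro ⟨hx, hmax⟩
    refine ⟨hx, fun j hj => ?_⟩
    have h1 := hmax 0 zero_mem
    simp only [PiLp.zero_apply, Finset.sum_const_zero] at h1
    have h2 := Finset.sum_nonneg (s := Finset.univ.filter (fun j : Fin (n + 3) => k ≤ j))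
      (f := fun j => x j) (fun j _ => coord_nonneg hx j)
    have h3 := (Finset.sum_eq_zero_iff_of_nonneg (fun j _ => coord_nonneg hx j)).1
      (le_antisymm h1 h2) j (Finset.mem_filter.2 ⟨Finset.mem_univ _, hj⟩)
    exact h3

lemma zero_mem_twr (k : ℕ) : (0 : Space (n + 3)) ∈ twr n k := ⟨zero_mem, fun _ _ => rfl⟩

lemma e_mem_twr {k : ℕ} {j : Fin (n + 3)} (hj : (j : ℕ) < k) : e j ∈ twr n k := by
  refine ⟨e_mem j, fun i hi => ?_⟩
  rw [e_apply, if_neg]
  rintro rfl
  omega

lemma linInd_e {k : ℕ} (hk : k ≤ n + 3) :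
    LinearIndependent ℝ (fun i : Fin k => (e (Fin.castLE hk i) : Space (n + 3))) := by
  have h := (EuclideanSpace.basisFun (Fin (n + 3)) ℝ).toBasis.linearIndependent
  have h2 := h.comp (Fin.castLE hk) (Fin.castLE_injective hk)
  have h3 : (fun i : Fin k => (e (Fin.castLE hk i) : Space (n + 3))) =
      (EuclideanSpace.basisFun (Fin (n + 3)) ℝ).toBasis ∘ Fin.castLE hk := by
    funext i
    simp [e]
  rw [h3]
  exact h2

lemma vectorSpan_twr {k : ℕ} (hk : k ≤ n + 3) :
    vectorSpan ℝ (twr n k) =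
      Submodule.span ℝ (range (fun i : Fin k => (e (Fin.castLE hk i) : Space (n + 3)))) := by
  apply le_antisymm
  · have hmem : ∀ x ∈ twr n k, x ∈ Submodule.span ℝ
        (range (fun i : Fin k => (e (Fin.castLE hk i) : Space (n + 3)))) := by
      intro x hx
      have hx' : x = ∑ j : Fin (n + 3), x j • e j := by
        ext i
        simp [e_apply]
      rw [hx']
      apply Submodule.sum_mem
      intro j _
      by_cases hj : (j : ℕ) < k
      · apply Submodule.smul_mem
        apply Submodule.subset_span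
        exact ⟨⟨j, hj⟩, rfl⟩
      · rw [hx.2 j (by omega), zero_smul]
        exact Submodule.zero_mem _
    rw [vectorSpan_def, Submodule.span_le]
    rintro _ ⟨x, hx, y, hy, rfl⟩
    exact Submodule.sub_mem _ (hmem x hx) (hmem y hy)
  · rw [Submodule.span_le]
    rintro _ ⟨i, rfl⟩
    have h1 : (e (Fin.castLE hk i) : Space (n + 3)) ∈ twr n k := e_mem_twr (by simp)
    have h2 := vsub_mem_vectorSpan ℝ h1 (zero_mem_twr (n := n) k)
    simpa using h2

lemma setDim_twr {k : ℕ} (hk : k ≤ n + 3) : setDim (twr n k) = k := by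
  unfold setDim
  rw [vectorSpan_twr hk, finrank_span_eq_card (linInd_e hk), Fintype.card_fin]

lemma twr_top : twr n (n + 3) = prism n := by
  ext x
  constructor
  · exact fun h => h.1
  · intro h
    exact ⟨h, fun j hj => absurd hj (by omega)⟩

lemma isTower : IsTower (prism n) (twr n) := by
  refine ⟨fun k hk => ⟨twr_isFace k, ⟨0, zero_mem_twr k⟩, setDim_twr hk⟩, fun k hk => ?_, twr_top⟩
  rw [Set.ssubset_iff_of_subset]
  · refine ⟨e ⟨k, hk⟩, e_mem_twr (by simp), fun h => ?_⟩
    have := h.2 ⟨k, hk⟩ le_rfl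
    simp [e_apply] at this
  · rintro x ⟨hx, h⟩
    exact ⟨hx, fun j hj => h j (by omega)⟩

lemma isDPolytope : IsDPolytope (prism n) := by
  refine ⟨⟨(verts_finite (n := n)).toFinset, by simp [prism]⟩, ⟨0, zero_mem⟩, ?_⟩
  rw [← twr_top, setDim_twr le_rfl]

/-- The exceptional vertex `V`. -/
noncomputable def VV (n : ℕ) : Space (n + 3) := e aa + e hh

lemma VV_mem : VV n ∈ prism n := e_add_mem aa (Ne.symm hh_ne_aa)

lemma VV_isVertex : IsVertex (prism n) (VV n) := by
  intro _
  refine ⟨(EuclideanSpace.proj aa : Space (n + 3) →L[ℝ] ℝ) +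
    (EuclideanSpace.proj hh : Space (n + 3) →L[ℝ] ℝ), ?_⟩
  ext x
  simp only [mem_singleton_iff, add_apply, PiLp.proj_apply,
    mem_ofPred_eq]
  have hVa : (VV n) aa = 1 := by simp [VV, e_apply, Ne.symm hh_ne_aa]
  have hVh : (VV n) hh = 1 := by simp [VV, e_apply, hh_ne_aa]
  constructor
  · rintro rfl
    refine ⟨VV_mem, fun y hy => ?_⟩
    rw [hVa, hVh]
    have h1 := coord_le_one hy aa
    have h2 := coord_le_one hy hh
    linarith
  · rintro ⟨hx, hmax⟩
    have h := hmax (VV n) VV_mem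
    rw [hVa, hVh] at h
    have h1 := coord_le_one hx aa
    have h2 := coord_le_one hx hh
    have hxa : x aa = 1 := by linarith
    have hxh : x hh = 1 := by linarith
    have hs := sum_le hx
    ext k
    by_cases hka : k = aa
    · rw [hka, hxa, hVa]
    by_cases hkh : k = hh
    · rw [hkh, hxh, hVh]
    have h3 : ∑ j ∈ ({aa, hh, k} : Finset (Fin (n + 3))), x j ≤ ∑ j, x j :=
      Finset.sum_le_sum_of_subset_of_nonneg (Finset.subset_univ _) (fun l _ _ => coord_nonneg hx l)
    rw [Finset.sum_insert (by simp [Ne.symm hh_ne_aa, Ne.symm hka]),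
      Finset.sum_insert (by simp [Ne.symm hkh]), Finset.sum_singleton] at h3
    have h4 := coord_nonneg hx k
    have h5 : x k = 0 := by linarith
    rw [h5]
    simp [VV, e_apply, hka, hkh]

lemma VV_not_mem : VV n ∉ twr n (n + 2) := by
  intro h
  have := h.2 aa (by simp [aa])
  simp [VV, e_apply, Ne.symm hh_ne_aa] at this


/-- If a face `G` contains `v` and `VV`, where `v + e hh` is in the prism, it contains `e aa`. -/
lemma e_aa_mem {G : Set (Space (n + 3))} (hG : IsFace (prism n) G) {v : Space (n + 3)}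
    (hv : v ∈ G) (hV : VV n ∈ G) (hvh : v + e hh ∈ prism n) : (e aa : Space (n + 3)) ∈ G := by
  have hext : IsExtreme ℝ (prism n) G := IsExposed.isExtreme hG
  have hconv : Convex ℝ G := IsExposed.convex hG (convex_convexHull ℝ _)
  have hmid : (1 / 2 : ℝ) • v + (1 / 2 : ℝ) • VV n ∈ G :=
    hconv hv hV (by norm_num) (by norm_num) (by norm_num)
  apply hext.left_mem_of_mem_openSegment (e_mem aa) hvh hmid
  refine ⟨1 / 2, 1 / 2, by norm_num, by norm_num, by norm_num, ?_⟩
  unfold VV
  module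

/-- The local structure of the prism at a vertex `v` of `twr n (n + 2)`. -/
lemma local_at {G : Set (Space (n + 3))} (hG : IsFace (prism n) G) {v u : Space (n + 3)}
    (hv : v ∈ G) (hvh : v + e hh ∈ prism n) (hu : u ∈ verts n) (huG : u ∈ G) (huv : u ≠ v)
    (hcap : G ∩ twr n (n + 2) ⊆ {v}) : (e aa : Space (n + 3)) ∈ G := by
  obtain ⟨⟨j, t⟩, rfl⟩ := hu
  by_cases hj : j = aa
  · subst hj
    cases t
    · simpa [vtx, Ne.symm hh_ne_aa] using huG
    · have : VV n ∈ G := by simpa [vtx, Ne.symm hh_ne_aa, VV] using huG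
      exact e_aa_mem hG hv this hvh
  · exfalso
    apply huv
    apply hcap
    refine ⟨huG, vtx_mem _, fun k hk => ?_⟩
    have hk' : k = aa := by
      apply Fin.ext
      have := k.2
      simp only [aa]
      omega
    subst hk'
    rw [vtx_apply]
    simp [Ne.symm hj, Ne.symm hh_ne_aa]

lemma zero_not_mem_hull : (0 : Space (n + 3)) ∉ convexHull ℝ (verts n \ {0}) := by
  intro h
  have hsub : convexHull ℝ (verts n \ {0}) ⊆ {x | (1 : ℝ) ≤ (∑ j,
      (EuclideanSpace.proj j : Space (n + 3) →L[ℝ] ℝ) : Space (n + 3) →L[ℝ] ℝ) x} := by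
    apply convexHull_min
    · rintro _ ⟨⟨⟨j, t⟩, rfl⟩, hne⟩
      have hne' : ¬ (j = hh ∧ t = false) := by
        rintro ⟨rfl, rfl⟩
        apply hne
        simp [vtx]
      have : (1 : ℝ) ≤ ∑ k, vtx (j, t) k := by
        simp only [vtx_apply, Finset.sum_add_distrib]
        by_cases hj : j = hh
        · cases t
          · exact absurd ⟨hj, rfl⟩ hne'
          · simp [hj]
        · cases t <;> simp [hj]
      simpa using this
    · exact convex_halfSpace_ge (IsLinearMap.mk (map_add _) (fun c x => map_smul _ c x)) 1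
  have := hsub h
  simp only [mem_ofPred_eq, map_zero] at this
  linarith

lemma e_zero_not_mem_hull : (e 0 : Space (n + 3)) ∉ convexHull ℝ (verts n \ {e 0}) := by
  intro h
  have hsub : convexHull ℝ (verts n \ {e 0}) ⊆ {x | ((EuclideanSpace.proj 0 : Space (n + 3) →L[ℝ] ℝ)
      - (EuclideanSpace.proj hh : Space (n + 3) →L[ℝ] ℝ)) x ≤ (0 : ℝ)} := by
    apply convexHull_min
    · rintro _ ⟨⟨⟨j, t⟩, rfl⟩, hne⟩
      have hne' : ¬ (j = 0 ∧ t = false) := by
        rintro ⟨rfl, rfl⟩
        apply hne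
        simp [vtx, zero_ne_hh]
      have : vtx (j, t) 0 - vtx (j, t) hh ≤ (0 : ℝ) := by
        simp only [vtx_apply]
        by_cases hj : j = 0
        · cases t
          · exact absurd ⟨hj, rfl⟩ hne'
          · simp [hj, zero_ne_hh, Ne.symm zero_ne_hh]
        · by_cases hj' : j = hh
          · cases t <;> simp [hj', zero_ne_hh]
          · cases t <;> simp [Ne.symm hj, Ne.symm hj', hj', zero_ne_hh]
      simpa using this
    · exact convex_halfSpace_le (IsLinearMap.mk (map_add _) (fun c x => map_smul _ c x)) 0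
  have := hsub h
  simp only [mem_ofPred_eq, sub_apply, PiLp.proj_apply, e_apply, if_true, if_neg (Ne.symm zero_ne_hh)]
    at this
  norm_num at this

/-- The extreme points of the prism on the edge `twr n 1` are `0` and `e 0`. -/
lemma extreme_on_edge {u : Space (n + 3)} (hu : IsVertex (prism n) u) (hu1 : u ∈ twr n 1) :
    u = 0 ∨ u = e 0 := by
  have hext : u ∈ (prism n).extremePoints ℝ := by
    apply exposedPoints_subset_extremePoints
    rw [mem_exposedPoints_iff_exposed_singleton]
    exact hu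
  have hform : u = (u 0) • (e 0 : Space (n + 3)) := by
    ext k
    by_cases hk : k = 0
    · subst hk
      simp [e_apply]
    · have h1 : u k = 0 := by
        apply hu1.2
        have : (k : ℕ) ≠ 0 := fun h => hk (Fin.ext (by simpa using h))
        omega
      rw [h1]
      simp [e_apply, hk]
  have h0 := coord_nonneg hu1.1 0
  have h1 := coord_le_one hu1.1 0
  rcases h0.eq_or_lt with h | h
  · left
    rw [hform, ← h, zero_smul]
  rcases h1.eq_or_lt with h' | h'
  · right
    rw [hform, h', one_smul]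
  · exfalso
    rw [mem_extremePoints] at hext
    have hop : u ∈ openSegment ℝ (0 : Space (n + 3)) (e 0) :=
      ⟨1 - u 0, u 0, by linarith, h, by ring, by rw [smul_zero, zero_add]; exact hform.symm⟩
    have := (hext.2 0 zero_mem (e 0) (e_mem 0) hop).1
    rw [← this] at h
    simp at h

end prism

/-! ## Refinement maps -/

section refinement

variable {d : ℕ} {P T : Set (Space d)}

lemma preim_isPreconnected (ψ : P ≃ₜ T) {K : Set (Space d)} (hKT : K ⊆ T)
    (hK : IsPreconnected K) : IsPreconnected (preim ψ K) := by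
  have h1 : IsPreconnected ((Subtype.val : T → Space d) ⁻¹' K) := by
    rw [← Topology.IsInducing.subtypeVal.isPreconnected_image, Subtype.image_preimage_coe,
      inter_eq_right.2 hKT]
    exact hK
  have h2 : preim ψ K = (fun t : T => (ψ.symm t : Space d)) '' ((Subtype.val : T → Space d) ⁻¹' K) := by
    ext x
    constructor
    · rintro ⟨hx, hxK⟩
      exact ⟨ψ ⟨x, hx⟩, hxK, by simp⟩
    · rintro ⟨t, ht, rfl⟩
      refine ⟨(ψ.symm t).2, ?_⟩
      simpa using ht
  rw [h2]
  exact h1.image _ (by fun_prop)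

/-- The preimage of a vertex of `T` under a refinement map is a vertex of `P`. -/
lemma preim_vertex (ψ : P ≃ₜ T) (hψ : IsRefinementMap ψ) {t : Space d} (ht : t ∈ T)
    (hvt : IsVertex T t) : IsVertex P (ψ.symm ⟨t, ht⟩ : Space d) := by
  obtain ⟨𝒮, h𝒮, heq⟩ := hψ _ hvt
  have h1 : (ψ.symm ⟨t, ht⟩ : Space d) ∈ preim ψ {t} := ⟨(ψ.symm ⟨t, ht⟩).2, by simp⟩
  have h2 : preim ψ {t} ⊆ {(ψ.symm ⟨t, ht⟩ : Space d)} := by
    rintro x ⟨hx, hxt⟩
    rw [mem_singleton_iff] at hxt ⊢
    have : ψ ⟨x, hx⟩ = ⟨t, ht⟩ := Subtype.ext hxt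
    rw [← this]
    simp
  rw [heq] at h1 h2
  obtain ⟨G, hG, hxG⟩ := h1
  have : G = {(ψ.symm ⟨t, ht⟩ : Space d)} := by
    apply Subset.antisymm
    · exact (subset_sUnion_of_mem hG).trans h2
    · rintro _ rfl
      exact hxG
  rw [IsVertex, ← this]
  exact h𝒮 G hG

end refinement

/-! ## The main argument -/

section main

variable {n : ℕ}

/-- The key step: the preimage of the edge of `T` from `ψ VV` to `ψ v` passes through `e aa`. -/
lemma key {T : Set (Space (n + 3))} (ψ : prism n ≃ₜ T) (hψ : IsRefinementMap ψ)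
    {v : Space (n + 3)} (hv : v ∈ prism n) (hvh : v + e hh ∈ prism n) (hvV : VV n ≠ v)
    (hvhull : v ∉ convexHull ℝ (verts n \ {v}))
    (hF : IsFace T (im ψ (twr n (n + 2))))
    (hE : IsFace T (segment ℝ (ψ ⟨VV n, VV_mem⟩ : Space (n + 3)) (ψ ⟨v, hv⟩))) :
    (ψ ⟨e aa, e_mem aa⟩ : Space (n + 3)) ∈
      segment ℝ (ψ ⟨VV n, VV_mem⟩ : Space (n + 3)) (ψ ⟨v, hv⟩) := by
  obtain ⟨𝒮, h𝒮, heq⟩ := hψ _ hE
  have hcon : IsPreconnected (preim ψ
      (segment ℝ (ψ ⟨VV n, VV_mem⟩ : Space (n + 3)) (ψ ⟨v, hv⟩))) :=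
    preim_isPreconnected ψ hE.subset (convex_segment _ _).isPreconnected
  have hvA : v ∈ preim ψ (segment ℝ (ψ ⟨VV n, VV_mem⟩ : Space (n + 3)) (ψ ⟨v, hv⟩)) :=
    ⟨hv, right_mem_segment ℝ _ _⟩
  have hVA : VV n ∈ preim ψ (segment ℝ (ψ ⟨VV n, VV_mem⟩ : Space (n + 3)) (ψ ⟨v, hv⟩)) :=
    ⟨VV_mem, left_mem_segment ℝ _ _⟩
  rw [heq] at hcon hvA hVA
  obtain ⟨G, hG, hvG, u, hu, huG, huv⟩ :=
    exists_face_at verts_finite hvhull h𝒮 hcon hvA hVA hvV
  have hGsub : G ⊆ preim ψ (segment ℝ (ψ ⟨VV n, VV_mem⟩ : Space (n + 3)) (ψ ⟨v, hv⟩)) := by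
    rw [heq]
    exact subset_sUnion_of_mem hG
  have hcap : G ∩ twr n (n + 2) ⊆ {v} := by
    rintro x ⟨hxG, hxF⟩
    obtain ⟨hx, hxE⟩ := hGsub hxG
    have hxK : (ψ ⟨x, hx⟩ : Space (n + 3)) ∈ im ψ (twr n (n + 2)) := ⟨x, hx, hxF, rfl⟩
    have hVK : (ψ ⟨VV n, VV_mem⟩ : Space (n + 3)) ∉ im ψ (twr n (n + 2)) := by
      rintro ⟨y, hy, hyF, hyeq⟩
      have h1 : ψ ⟨y, hy⟩ = ψ ⟨VV n, VV_mem⟩ := Subtype.ext hyeq
      have h2 := congrArg Subtype.val (ψ.injective h1)
      simp only at h2
      exact VV_not_mem (h2 ▸ hyF)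
    have hext : IsExtreme ℝ T (im ψ (twr n (n + 2))) := IsExposed.isExtreme hF
    rw [← insert_endpoints_openSegment] at hxE
    rcases hxE with h | h | h
    · exact absurd (h ▸ hxK) hVK
    · have h1 : ψ ⟨x, hx⟩ = ψ ⟨v, hv⟩ := Subtype.ext h
      exact congrArg Subtype.val (ψ.injective h1)
    · exact absurd (hext.left_mem_of_mem_openSegment (ψ _).2 (ψ _).2 hxK h) hVK
  have hmem := hGsub (local_at (h𝒮 G hG) hvG hvh hu huG huv hcap)
  exact hmem.2

/-- **Negative answer to Q1, in every dimension `d ≥ 3`.** For every `d ≥ 3` there are a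
`d`-polytope `P`, a tower `F 0 ⊂ ⋯ ⊂ F d = P` of faces of `P` and a vertex `V` of `P` with
`V ∉ F (d - 1)` such that for every `d`-simplex `T` no refinement map `ψ` of `P` onto `T` at all
(so in particular no piecewise affine one) sends `V` and all of `F 0, …, F d` onto faces of `T`. -/
theorem result : ∀ d : ℕ, 3 ≤ d →
    ∃ (P : Set (Space d)) (F : ℕ → Set (Space d)) (V : Space d),
      IsDPolytope P ∧ IsTower P F ∧ IsVertex P V ∧ V ∉ F (d - 1) ∧
      ∀ T : Set (Space d), IsSimplex T → ∀ ψ : P ≃ₜ T, IsRefinementMap ψ →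
        ¬ (IsFace T (im ψ {V}) ∧ ∀ i ≤ d, IsFace T (im ψ (F i))) := by
  intro d hd
  obtain ⟨n, rfl⟩ : ∃ n, d = n + 3 := ⟨d - 3, by omega⟩
  refine ⟨prism n, twr n, VV n, isDPolytope, isTower, VV_isVertex, VV_not_mem, ?_⟩
  rintro T ⟨b, hb, hT⟩ ψ hψ ⟨hV, hF⟩
  subst hT
  set B := simplexBasis b hb with hB
  have hbB : (B : Fin (n + 3 + 1) → Space (n + 3)) = b := rfl
  -- vertices of the simplex
  have hvert : ∀ t, IsVertex (convexHull ℝ (range b)) t → ∃ i, b i = t := by
    intro t ht
    have h1 : t ∈ (convexHull ℝ (range b)).extremePoints ℝ := by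
      apply exposedPoints_subset_extremePoints
      rw [mem_exposedPoints_iff_exposed_singleton]
      exact ht
    have h2 : t ∈ range b := extremePoints_convexHull_subset h1
    exact h2
  have him : ∀ x (hx : x ∈ prism n), im ψ {x} = {(ψ ⟨x, hx⟩ : Space (n + 3))} := by
    intro x hx
    ext y
    constructor
    · rintro ⟨z, hz, hzx, rfl⟩
      rw [mem_singleton_iff] at hzx
      subst hzx
      rfl
    · rintro rfl
      exact ⟨x, hx, rfl, rfl⟩
  have htwr0 : twr n 0 = {0} := by
    ext x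
    constructor
    · rintro ⟨-, h⟩
      rw [mem_singleton_iff]
      ext j
      exact h j (Nat.zero_le _)
    · rintro rfl
      exact zero_mem_twr 0
  -- `ψ V` and `ψ 0` are vertices of the simplex
  obtain ⟨i, hi⟩ : ∃ i, b i = (ψ ⟨VV n, VV_mem⟩ : Space (n + 3)) := by
    apply hvert
    rw [IsVertex, ← him]
    exact hV
  obtain ⟨j, hj⟩ : ∃ j, b j = (ψ ⟨0, zero_mem⟩ : Space (n + 3)) := by
    apply hvert
    rw [IsVertex, ← him, ← htwr0]
    exact hF 0 (Nat.zero_le _)
  -- the vertices of the simplex are faces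
  have hbvert : ∀ k, IsVertex (convexHull ℝ (range b)) (b k) := by
    intro k
    obtain ⟨k', hk'⟩ : ∃ k' : Fin (n + 3 + 1), k' ≠ k := exists_ne k
    obtain ⟨k'', hk''⟩ : ∃ k'' : Fin (n + 3 + 1), k'' ≠ k ∧ k'' ≠ k' := by
      by_contra hcon
      push Not at hcon
      have hcard : (Finset.univ : Finset (Fin (n + 3 + 1))) ⊆ {k, k'} := by
        intro x _
        by_cases hxk : x = k
        · simp [hxk]
        · simp [hcon x hxk]
      have h1 := Finset.card_le_card hcard
      have h2 : ({k, k'} : Finset (Fin (n + 3 + 1))).card ≤ 2 := Finset.card_le_two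
      simp at h1
      omega
    have h1 := segment_isFace B (i := k) (j := k') (Ne.symm hk')
    have h2 := segment_isFace B (i := k) (j := k'') (Ne.symm hk''.1)
    have h3 : segment ℝ (B k) (B k') ∩ segment ℝ (B k) (B k'') = {b k} := by
      apply Subset.antisymm
      · rintro x ⟨hx1, hx2⟩
        exact segment_inter B (Ne.symm hk') (Ne.symm hk''.1) (Ne.symm hk''.2) hx1 hx2
      · rintro _ rfl
        exact ⟨left_mem_segment ℝ _ _, left_mem_segment ℝ _ _⟩
    rw [IsVertex, ← h3]
    exact IsExposed.inter h1 h2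
  -- `ψ (e 0)` is a vertex of the simplex
  obtain ⟨k, hk⟩ : ∃ k, b k = (ψ ⟨e 0, e_mem 0⟩ : Space (n + 3)) := by
    have hL := hF 1 (by omega)
    have he0 : (ψ ⟨e 0, e_mem 0⟩ : Space (n + 3)) ∈ im ψ (twr n 1) :=
      ⟨e 0, e_mem 0, e_mem_twr (by simp), rfl⟩
    have hsub := face_subset hL
    by_contra hno
    push Not at hno
    have h1 : range b ∩ im ψ (twr n 1) ⊆ {(ψ ⟨0, zero_mem⟩ : Space (n + 3))} := by
      rintro _ ⟨⟨k, rfl⟩, ⟨u, hu, hu1, huk⟩⟩
      have hbk : b k ∈ convexHull ℝ (range b) := subset_convexHull ℝ _ ⟨k, rfl⟩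
      have h2 := preim_vertex ψ hψ hbk (hbvert k)
      have h3 : ψ.symm ⟨b k, hbk⟩ = ⟨u, hu⟩ := by
        rw [Homeomorph.symm_apply_eq]
        exact Subtype.ext huk.symm
      rw [h3] at h2
      rcases extreme_on_edge h2 hu1 with h4 | h4
      · subst h4
        exact huk.symm
      · subst h4
        exact absurd huk.symm (hno k)
    have h2 := convexHull_mono h1 (hsub he0)
    rw [convexHull_singleton, mem_singleton_iff] at h2
    have h3 := ψ.injective (Subtype.ext h2)
    have h4 := congrArg (fun x : prism n => (x : Space (n + 3)) 0) h3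
    simp [e_apply] at h4
  have hij : i ≠ j := by
    rintro rfl
    rw [hi] at hj
    have h3 := ψ.injective (Subtype.ext hj)
    have h4 := congrArg (fun x : prism n => (x : Space (n + 3)) aa) h3
    simp [VV, e_apply, Ne.symm hh_ne_aa] at h4
  have hik : i ≠ k := by
    rintro rfl
    rw [hi] at hk
    have h3 := ψ.injective (Subtype.ext hk)
    have h4 := congrArg (fun x : prism n => (x : Space (n + 3)) aa) h3
    simp [VV, e_apply, Ne.symm hh_ne_aa, Ne.symm zero_ne_aa] at h4
  have hjk : j ≠ k := by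
    rintro rfl
    rw [hj] at hk
    have h3 := ψ.injective (Subtype.ext hk)
    have h4 := congrArg (fun x : prism n => (x : Space (n + 3)) 0) h3
    simp [e_apply] at h4
  have hE0 := segment_isFace B hij
  have hE1 := segment_isFace B hik
  rw [hbB, hi, hj] at hE0
  rw [hbB, hi, hk] at hE1
  have hVne0 : VV n ≠ 0 := by
    intro h
    have := congrArg (fun x : Space (n + 3) => x aa) h
    simp [VV, e_apply, Ne.symm hh_ne_aa] at this
  have hVne1 : VV n ≠ e 0 := by
    intro h
    have := congrArg (fun x : Space (n + 3) => x aa) h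
    simp [VV, e_apply, Ne.symm hh_ne_aa, Ne.symm zero_ne_aa] at this
  have hA0 := key ψ hψ zero_mem (by rw [zero_add]; exact e_mem hh) hVne0 zero_not_mem_hull
    (hF (n + 2) (by omega)) hE0
  have hA1 := key ψ hψ (e_mem 0) (e_add_mem 0 zero_ne_hh) hVne1 e_zero_not_mem_hull
    (hF (n + 2) (by omega)) hE1
  rw [← hi, ← hj] at hA0
  rw [← hi, ← hk] at hA1
  have hfin : (ψ ⟨e aa, e_mem aa⟩ : Space (n + 3)) = b i := segment_inter B hij hik hjk hA0 hA1
  rw [hi] at hfin
  have h3 := ψ.injective (Subtype.ext hfin)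
  have h4 := congrArg (fun x : prism n => (x : Space (n + 3)) hh) h3
  simp [VV, e_apply, hh_ne_aa] at h4

end main

end Pool.Agent.Results.MP_82a66d_co.FlagVertexCounterexample
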